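import Pool.Agent.Run7.h869.MT.P9
import Pool.Agent.Run7.h615.MT.P8
import Pool.Agent.Run7.h457.MT.Tann
import Pool.Agent.Run7.h475.MT.P13

/-!
# Project MT457, piece P11a: `Good` for `H^i(X_t)` and for the Tate object
-/

set_option autoImplicit false

namespace Run7.h700.MT

open Matrix Filter Topology
open Run7.h457.MT Run7.h615.MT
open Run7.h475.MT (t_SPAN t_LIE ext_map ext_rat t_LOGEX)

noncomputable section

variable {T : Type} [Fintype T] [DecidableEq T] {d : T → ℕ} (B : ∀ t, LLV (d t))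

theorem mtLie_le_mm (W : ∀ t, (B t).Hodge) (hd : ∀ t, 2 ≤ d t) :
    mtLie (D2 B W) (D2' B W) ≤ mm B :=
  sInf_le ⟨mm_lie B, D_mem B W hd, D'_mem B W hd⟩

theorem lieOn_mono {ι κ : Type} [Fintype ι] [DecidableEq ι] [Fintype κ] [DecidableEq κ]
    {S S' : Submodule ℚ (Matrix ι ι ℚ)} (h : S ≤ S') {R : Matrix ι ι ℚ →ₗ[ℚ] Matrix κ κ ℚ}
    (hR : LieOn S' R) : LieOn S R := fun x hx y hy => hR x (h hx) y (h hy)

/-! ## The base -/

/-- `E(A)`: the action on `H^i(X_t)` of the block diagonal part of `A`. -/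
def EB (t : T) (i : ℕ) : Matrix (I2 B) (I2 B) ℚ →ₗ[ℚ]
    Matrix (Fin ((B t).n i)) (Fin ((B t).n i)) ℚ where
  toFun A := (B t).R i (Matrix.blockDiag' A t)
  map_add' A A' := by
    rw [Matrix.blockDiag'_add, Pi.add_apply, map_add]
  map_smul' c A := by
    rw [RingHom.id_apply, Matrix.blockDiag'_smul, Pi.smul_apply, map_smul]

theorem EB_apply (t : T) (i : ℕ) (A : Matrix (I2 B) (I2 B) ℚ) :
    EB B t i A = (B t).R i (Matrix.blockDiag' A t) := rfl

theorem EB_lie (t : T) (i : ℕ) (hi : i ≤ d t) : LieOn (mm B) (EB B t i) := by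
  rintro _ ⟨c, Y, hY, rfl⟩ _ ⟨c', Y', hY', rfl⟩
  rw [mm_bracket, EB_apply, EB_apply, EB_apply, Matrix.blockDiag'_blockDiagonal',
    Matrix.blockDiag'_blockDiagonal', Matrix.blockDiag'_blockDiagonal']
  have h1 := R_apply (B t) i 0 (skew_sub (hY t) (hY' t))
  rw [zero_smul, zero_add, mul_zero, zero_smul, zero_add] at h1
  show (B t).R i (Y t * Y' t - Y' t * Y t) =
    (B t).R i (c t • 1 + Y t) * (B t).R i (c' t • 1 + Y' t) -
    (B t).R i (c' t • 1 + Y' t) * (B t).R i (c t • 1 + Y t)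
  rw [h1, R_apply _ i _ (hY t), R_apply _ i _ (hY' t), comm_add,
    (B t).bracket i hi _ _ (hY t) (hY' t)]

theorem ext_EB (t : T) (i : ℕ) (F : Type) [Field F] [Algebra ℚ F] (A : Matrix (I2 B) (I2 B) F) :
    ext F (EB B t i) A = ext F ((B t).R i) (Matrix.blockDiag' A t) := by
  apply mat_ext
  intro φ
  rw [ext_map, EB_apply, ext_map, blockDiag'_functional]

theorem base : S_BASE := by
  intro ℓ _ Γ _ T _ _ d hd B W G hG t i hi
  refine ⟨EB B t i, lieOn_mono (mtLie_le_mm B W hd) (EB_lie B t i hi), ?_, ?_⟩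
  · intro N
    obtain ⟨Δ, hΔ, h⟩ := hG N
    refine ⟨Δ, hΔ, fun σ hσ => ⟨(h σ hσ t i hi).1, fun L hL => ?_⟩⟩
    have h1 := (h σ hσ t i hi).2 _ (Run7.h869.MT.logBlock hL t)
    show IsLog (G t i σ) (ext ℚ_[ℓ] (EB B t i) L)
    rw [ext_EB]
    exact h1
  · refine ⟨Fin (i + 1), inferInstance, inferInstance, fun p => ((p : ℕ) : ℤ),
      fun p => ((i - p : ℕ) : ℤ), fun p => ((W t).V i).e p, ?_, ?_, ?_, ?_, ?_⟩
    · intro p p'
      have h := ((W t).V i).mul p (Nat.lt_succ_iff.1 p.2) p' (Nat.lt_succ_iff.1 p'.2)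
      show ((W t).V i).e p * ((W t).V i).e p' = _
      rw [h]
      by_cases hp : p = p'
      · rw [if_pos hp, if_pos (congrArg _ hp)]
      · rw [if_neg hp, if_neg fun h => hp (Fin.ext h)]
    · show ∑ p : Fin (i + 1), ((W t).V i).e p = 1
      rw [← ((W t).V i).sum, Finset.sum_range]
    · intro z hz
      show ((W t).V i).h z = _
      unfold HodgeStr.h
      rw [Finset.sum_range]
      refine Finset.sum_congr rfl fun p _ => ?_
      congr 1
      show _ = z ^ (-((p : ℕ) : ℤ)) * starRingEnd ℂ z ^ (-((i - p : ℕ) : ℤ))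
      rw [_root_.zpow_neg, _root_.zpow_neg, _root_.zpow_natCast, _root_.zpow_natCast, mul_inv]
    · rw [ext_EB]
      show ext ℂ ((B t).R i) (Matrix.blockDiag' (Matrix.blockDiagonal' fun t => ((W t).V 2).D) t) = _
      rw [Matrix.blockDiag'_blockDiagonal', ext_R_D (W t) (hd t) i hi]
      unfold HodgeStr.D
      rw [Finset.sum_range]
      refine Finset.sum_congr rfl fun p _ => ?_
      norm_cast
    · rw [ext_EB]
      show ext ℂ ((B t).R i) (Matrix.blockDiag' (Matrix.blockDiagonal' fun t => ((W t).V 2).D') t) = _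
      rw [Matrix.blockDiag'_blockDiagonal', ext_R_D' (W t) (hd t) i hi]
      unfold HodgeStr.D'
      rw [Finset.sum_range]
      refine Finset.sum_congr rfl fun p _ => ?_
      norm_cast

/-! ## The Tate object -/

/-- `E(A) = -(tr A_t / n_t)`. -/
def ETt (t : T) : Matrix (I2 B) (I2 B) ℚ →ₗ[ℚ] Matrix (Fin 1) (Fin 1) ℚ where
  toFun A := (-((Matrix.blockDiag' A t).trace / (B t).n 2)) • 1
  map_add' A A' := by
    rw [Matrix.blockDiag'_add, Pi.add_apply, Matrix.trace_add, add_div, neg_add, add_smul]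
  map_smul' c A := by
    rw [RingHom.id_apply, Matrix.blockDiag'_smul, Pi.smul_apply, Matrix.trace_smul, smul_smul,
      smul_eq_mul, mul_div_assoc, mul_neg]

theorem ETt_apply (t : T) (A : Matrix (I2 B) (I2 B) ℚ) :
    ETt B t A = (-((Matrix.blockDiag' A t).trace / (B t).n 2)) • 1 := rfl

theorem ETt_lie (t : T) : LieOn (mm B) (ETt B t) := by
  rintro _ ⟨c, Y, hY, rfl⟩ _ ⟨c', Y', hY', rfl⟩
  rw [mm_bracket, ETt_apply, ETt_apply, ETt_apply, Matrix.blockDiag'_blockDiagonal']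
  simp only [smul_mul_assoc, mul_smul_comm, one_mul, smul_smul]
  rw [Matrix.trace_sub, Matrix.trace_mul_comm, sub_self, zero_div, neg_zero, zero_smul,
    mul_comm, sub_self]

theorem ext_ETt (t : T) (F : Type) [Field F] [Algebra ℚ F] (A : Matrix (I2 B) (I2 B) F) :
    ext F (ETt B t) A = (-((Matrix.blockDiag' A t).trace / (B t).n 2)) • 1 := by
  apply mat_ext
  intro φ
  rw [ext_map, ETt_apply, blockDiag'_functional]
  ext a b
  rw [Matrix.map_apply, Matrix.smul_apply, Matrix.smul_apply, Matrix.one_apply, Matrix.one_apply]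
  have htr : ((Matrix.blockDiag' A t).map φ).trace = φ (Matrix.blockDiag' A t).trace := by
    simp only [Matrix.trace, Matrix.diag, Matrix.map_apply, map_sum]
  split_ifs
  · rw [smul_eq_mul, smul_eq_mul, mul_one, mul_one, htr]
    have h1 : -((Matrix.blockDiag' A t).trace / ((B t).n 2 : F)) =
        (-(((B t).n 2 : ℚ))⁻¹) • (Matrix.blockDiag' A t).trace := by
      rw [Algebra.smul_def, map_neg, map_inv₀, map_natCast]
      field_simp
    rw [h1, map_smul, smul_eq_mul]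
    field_simp
  · rw [smul_zero, smul_zero, map_zero]

theorem h_tate (z : ℂ) : (z * starRingEnd ℂ z) • (1 : Matrix (Fin 1) (Fin 1) ℂ) =
    ∑ _c : Unit, (z ^ (-(-1 : ℤ)) * starRingEnd ℂ z ^ (-(-1 : ℤ))) •
      (1 : Matrix (Fin 1) (Fin 1) ℂ) := by
  rw [Finset.sum_const]
  simp

theorem qdet (t : T) : ((B t).q.map (algebraMap ℚ ℂ)).det ≠ 0 := by
  intro h
  have h1 : algebraMap ℚ ℂ (B t).q.det = 0 := by
    rw [RingHom.map_det]
    exact h
  exact (B t).nondeg ((map_eq_zero _).1 h1)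

theorem n_ne (t : T) : ((B t).n 2 : ℂ) ≠ 0 := by
  have := (B t).dim
  exact_mod_cast (by omega : (B t).n 2 ≠ 0)

theorem ext_ETt_D (W : ∀ t, (B t).Hodge) (hd : ∀ t, 2 ≤ d t) (t : T) :
    ext ℂ (ETt B t) (D2 B W) =
      ∑ _c : Unit, (((-1 : ℤ)) : ℂ) • (1 : Matrix (Fin 1) (Fin 1) ℂ) := by
  have hDe : (Matrix.blockDiag' (D2 B W) t).trace = (B t).n 2 := by
    show (Matrix.blockDiag' (Matrix.blockDiagonal' fun t => ((W t).V 2).D) t).trace = _
    rw [Matrix.blockDiag'_blockDiagonal']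
    rw [(W t).verb 2 (hd t), Run7.h869.MT.ext_rho_two Run7.h475.MT.SPAN (B t) (W t).skew,
      Matrix.trace_add, Run7.h869.MT.trace_skew (qdet B t) (W t).skew, Matrix.trace_smul,
      Matrix.trace_one, Fintype.card_fin]
    norm_num
  rw [ext_ETt, hDe, div_self (n_ne B t), Finset.sum_const]
  simp

theorem ext_ETt_D' (W : ∀ t, (B t).Hodge) (hd : ∀ t, 2 ≤ d t) (t : T) :
    ext ℂ (ETt B t) (D2' B W) =
      ∑ _c : Unit, (((-1 : ℤ)) : ℂ) • (1 : Matrix (Fin 1) (Fin 1) ℂ) := by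
  have hDe : (Matrix.blockDiag' (D2' B W) t).trace = (B t).n 2 := by
    show (Matrix.blockDiag' (Matrix.blockDiagonal' fun t => ((W t).V 2).D') t).trace = _
    rw [Matrix.blockDiag'_blockDiagonal']
    rw [Run7.h869.MT.hodge_sum, (W t).verb 2 (hd t),
      Run7.h869.MT.ext_rho_two Run7.h475.MT.SPAN (B t) (W t).skew,
      Matrix.trace_sub, Matrix.trace_add, Run7.h869.MT.trace_skew (qdet B t) (W t).skew,
      Matrix.trace_smul, Matrix.trace_smul, Matrix.trace_one, Fintype.card_fin]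
    norm_num
    ring
  rw [ext_ETt, hDe, div_self (n_ne B t), Finset.sum_const]
  simp

theorem tateobj : S_TATEOBJ := by
  intro ℓ _ Γ _ T _ _ _ d hd B W G hG χ hχ hq
  obtain ⟨t⟩ := (inferInstance : Nonempty T)
  have hn : ∀ (F : Type) [Field F] [CharZero F], ((B t).n 2 : F) ≠ 0 := by
    intro F _ _
    have := (B t).dim
    exact_mod_cast (by omega : (B t).n 2 ≠ 0)
  refine ⟨ETt B t, lieOn_mono (mtLie_le_mm B W hd) (ETt_lie B t), ?_, ?_⟩
  · intro N
    obtain ⟨Δ, hΔ, h⟩ := hG 2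
    obtain ⟨Δ₁, hΔ₁, h1⟩ := hχ 2
    obtain ⟨Δ₂, hΔ₂, h2⟩ := hχ N
    have hρ : ∀ σ, (Obj.tate χ : Obj ℓ Γ).ρ σ = (χ σ) ^ 1 • (1 : Matrix (Fin 1) (Fin 1) ℚ_[ℓ]) := by
      intro σ
      show Matrix.scalar (Fin 1) (χ σ) = _
      rw [pow_one, Matrix.scalar_apply, Matrix.smul_one_eq_diagonal]
    refine ⟨Δ ⊓ Δ₁ ⊓ Δ₂, inferInstance, fun σ hσ => ⟨?_, fun L hL => ?_⟩⟩
    · rw [hρ]
      refine Run7.h869.MT.nearOne_smul (M := (1 : Matrix (Fin 1) (Fin 1) ℚ_[ℓ])) ?_ (h2 σ hσ.2) 1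
      intro i j
      rw [sub_self, Matrix.zero_apply, norm_zero]
      positivity
    · obtain ⟨u, hu⟩ := Run7.h869.MT.exists_log Run7.h475.MT.LOGEX (h1 σ hσ.1.2)
      have hχ0 : χ σ ≠ 0 := by
        intro h
        have h1 : χ σ * χ σ⁻¹ = 1 := by rw [← map_mul, mul_inv_cancel, map_one]
        rw [h, zero_mul] at h1
        exact zero_ne_one h1
      have hLt := Run7.h869.MT.logBlock hL t
      have hsk := Run7.h869.MT.skew_log hLt hχ0 hu (hq t σ)
      have hqd : ((B t).q.map (algebraMap ℚ ℚ_[ℓ])).det ≠ 0 := by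
        intro h
        have h1 : algebraMap ℚ ℚ_[ℓ] (B t).q.det = 0 := by
          rw [RingHom.map_det]
          exact h
        exact (B t).nondeg ((map_eq_zero _).1 h1)
      have htr := Run7.h869.MT.trace_of_skewlike hqd hsk
      show IsLog ((Obj.tate χ : Obj ℓ Γ).ρ σ) (ext ℚ_[ℓ] (ETt B t) L)
      rw [ext_ETt, hρ, htr, Fintype.card_fin, neg_div, mul_div_assoc,
        mul_comm ((B t).n 2 : ℚ_[ℓ]), div_mul_cancel₀ u (hn ℚ_[ℓ]), neg_neg]
      have h3 := Run7.h869.MT.IsLog.smul (log_one (κ := Fin 1) (ℓ := ℓ)) hu 1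
      rw [zero_add, Nat.cast_one, one_mul] at h3
      exact h3
  · refine ⟨Unit, inferInstance, inferInstance, fun _ => -1, fun _ => -1, fun _ => 1,
      ?_, ?_, ?_, ?_, ?_⟩
    · intro c c'
      rw [one_mul, if_pos (Subsingleton.elim c c')]
    · rw [Finset.sum_const]
      simp
    · intro z hz
      exact h_tate z
    · exact ext_ETt_D B W hd t
    · exact ext_ETt_D' B W hd t

end

end Run7.h700.MT
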